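import Pool.Agent.Helper93.T53.StD

/-!
Project T53, module RLL and SOL: the relations as lists, and solutions of the relations.
Adapted from `Pool/Agent/Helper47/TH3/M_Rll.lean`.
-/

set_option autoImplicit false

namespace Pool.Agent.Helper26.T53

open Pool.Agent.Helper93.T53
open Pool.Agent.Helper78.W3 (tr Fn3 Tm opL op3 S3Trm)

/-- A matrix whose square is the scalar `-5` acts trivially twice. -/
private lemma sq {R : Type} {r s : ℕ} (ht : S3Trm) (a b c d : ℤ) (ha : ¬ (3 : ℤ) ∣ a)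
    (hd : ¬ (3 : ℤ) ∣ d) (h1 : a * a + 9 * b * c = -5) (h2 : a * b + b * d = 0)
    (h3 : c * a + d * c = 0) (h4 : 9 * c * b + d * d = -5)
    (f : ZMod (3 ^ r) → ZMod (3 ^ s) → R) : tr a b c d (tr a b c d f) = f := by
  obtain ⟨c0, i0, k⟩ := ht R r s f
  rw [c0 a b c d a b c d ha hd ha hd, h1, h2, h3, h4]
  have h := k (-5) 1 0 0 1 (by decide) (by decide) (by decide)
  rw [i0] at h
  norm_num at h ⊢
  exact h

private lemma sum_nine {A : Type} [AddCommGroup A] (f : Fin 9 → A) :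
    ∑ i, f i = f 0 + f 1 + f 2 + f 3 + f 4 + f 5 + f 6 + f 7 + f 8 := by
  rw [Fin.sum_univ_castSucc, Fin.sum_univ_eight]
  rfl

/-- RLL. -/
theorem hRll (ht : S3Trm) : TRll := by
  intro r s F hF ρ
  obtain ⟨h5, h6, h7, h8, h0⟩ := hF
  have i0 := fun i => (ht (ZMod 3) r s (F i)).2.1
  have hop : ∀ (a b c d : ℤ) (G : Fn3 (3 ^ r) (3 ^ s)) (x : ZMod (3 ^ r)) (y : ZMod (3 ^ s)),
      op3 a b c d G x y = tr a b c d G x y := fun _ _ _ _ _ _ _ => rfl
  funext x y
  have g5 := h5 x y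
  have g6 := h6 x y
  have g7 := h7 x y
  have g8 := h8 x y
  have g0 := h0 x y
  rw [sum_nine]
  fin_cases ρ
  · simp [relT, opL, hop, i0]
    linear_combination g5
  · simp [relT, opL, hop, i0]
    linear_combination g6
  · simp [relT, opL, hop, i0]
    linear_combination g7
  · simp [relT, opL, hop, i0]
    linear_combination g8
  · simp [relT, opL, hop, i0]
    linear_combination g0

/-- SOL. -/
theorem hSol (ht : S3Trm) : TSol := by
  intro R _ r s f b h
  have a0 := sq ht 20 3 (-15) (-20) (by decide) (by decide) (by norm_num) (by norm_num)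
    (by norm_num) (by norm_num) (b 0)
  have a1 := sq ht 20 (-3) 15 (-20) (by decide) (by decide) (by norm_num) (by norm_num)
    (by norm_num) (by norm_num) (b 1)
  have a2 := sq ht 20 (-9) 5 (-20) (by decide) (by decide) (by norm_num) (by norm_num)
    (by norm_num) (by norm_num) (b 2)
  have a3 := sq ht 25 (-14) 5 (-25) (by decide) (by decide) (by norm_num) (by norm_num)
    (by norm_num) (by norm_num) (b 3)
  refine ⟨fun x y => ?_, fun x y => ?_, fun x y => ?_, fun x y => ?_, fun x y => ?_⟩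
  · show b 0 x y - tr 20 3 (-15) (-20) (b 0) x y +
      (tr 20 3 (-15) (-20) (b 0) x y - tr 20 3 (-15) (-20) (tr 20 3 (-15) (-20) (b 0)) x y) = 0
    rw [a0]
    abel
  · show b 1 x y - tr 20 (-3) 15 (-20) (b 1) x y +
      (tr 20 (-3) 15 (-20) (b 1) x y - tr 20 (-3) 15 (-20) (tr 20 (-3) 15 (-20) (b 1)) x y) = 0
    rw [a1]
    abel
  · show b 2 x y - tr 20 (-9) 5 (-20) (b 2) x y +
      (tr 20 (-9) 5 (-20) (b 2) x y - tr 20 (-9) 5 (-20) (tr 20 (-9) 5 (-20) (b 2)) x y) = 0
    rw [a2]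
    abel
  · show b 3 x y - tr 25 (-14) 5 (-25) (b 3) x y +
      (tr 25 (-14) 5 (-25) (b 3) x y - tr 25 (-14) 5 (-25) (tr 25 (-14) 5 (-25) (b 3)) x y) = 0
    rw [a3]
    abel
  · exact h x y

end Pool.Agent.Helper26.T53
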